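import Mathlib

/-! SN-SUMH: sums over the grid (helper908); the method is that of Y179/SN/Sum1. -/

set_option autoImplicit false

namespace Pool.Agent.Y908.SN

open Finset

theorem sum_pow (t : ℝ) (ht0 : 0 < t) (ht1 : t < 1) (M : ℕ) :
    ∑ m ∈ range M, ((m : ℝ) + 1) ^ (t - 1) ≤ (1 / t) * (M : ℝ) ^ t := by
  induction M with
  | zero => simp [Real.zero_rpow ht0.ne']
  | succ M ih =>
    rw [sum_range_succ]
    push_cast
    set x : ℝ := (M : ℝ) + 1 with hx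
    have hx1 : 1 ≤ x := by
      have : (0 : ℝ) ≤ M := Nat.cast_nonneg M
      linarith
    have hx0 : 0 < x := by linarith
    have h1 : (M : ℝ) = x * (1 + (-(1 / x))) := by
      rw [hx]
      field_simp
      ring
    have h2 : (M : ℝ) ^ t ≤ x ^ t * (1 + t * (-(1 / x))) := by
      have h3 : -1 ≤ -(1 / x) := by
        rw [neg_le_neg_iff, div_le_one hx0]
        exact hx1
      rw [h1, Real.mul_rpow hx0.le (by linarith)]
      exact mul_le_mul_of_nonneg_left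
        (rpow_one_add_le_one_add_mul_self h3 ht0.le ht1.le) (by positivity)
    have h4 : x ^ (t - 1) = x ^ t * (1 / x) := by
      rw [Real.rpow_sub_one hx0.ne']
      ring
    rw [h4]
    have h5 : (1 / t) * (M : ℝ) ^ t ≤ (1 / t) * (x ^ t * (1 + t * (-(1 / x)))) :=
      mul_le_mul_of_nonneg_left h2 (by positivity)
    have h6 : (1 / t) * (x ^ t * (1 + t * (-(1 / x)))) = (1 / t) * x ^ t - x ^ t * (1 / x) := by
      field_simp
      ring
    linarith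

/-- truncated distance -/
def XX (n r : ℕ) (a : ℤ) : ℕ := min n (max r ((n : ℤ) - |a|).toNat)

/-- the points near the boundary, on one side -/
theorem side {n r β : ℕ} (t : ℝ) (ht0 : 0 < t) (ht1 : t < 1) (hr : 1 ≤ r) (hβ : r ≤ β)
    (hn : β ≤ n) (A : Finset ℤ)
    (hA : ∀ a ∈ A, |a| ≤ n ∧ (n : ℤ) - |a| ≤ β ∧ (r : ℤ) ∣ a)
    (hs : (∀ a ∈ A, 0 ≤ a) ∨ ∀ a ∈ A, a < 0) :
    ∑ a ∈ A, (XX n r a : ℝ) ^ (t - 1) ≤ (1 + 1 / t) * ((β : ℝ) ^ t / r) := by
  classical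
  have hr0 : (0 : ℝ) < r := by exact_mod_cast hr
  have hDr : (r : ℝ) ≤ β := by exact_mod_cast hβ
  have hD0 : (0 : ℝ) < β := by linarith
  -- the number of the block
  let f : ℤ → ℕ := fun a => ((n : ℤ) - |a|).toNat / r
  have hf : Set.InjOn f A := by
    intro a ha b hb hab
    obtain ⟨ha1, -, a', ha'⟩ := hA a ha
    obtain ⟨hb1, -, b', hb'⟩ := hA b hb
    have h1 : |a| = |b| := by
      obtain ⟨u, hu⟩ : ∃ u : ℕ, (n : ℤ) - |a| = u := ⟨((n : ℤ) - |a|).toNat, by omega⟩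
      obtain ⟨v, hv⟩ : ∃ v : ℕ, (n : ℤ) - |b| = v := ⟨((n : ℤ) - |b|).toNat, by omega⟩
      have huv : u / r = v / r := by
        have h2 : f a = u / r := by simp only [f]; rw [hu, Int.toNat_natCast]
        have h3 : f b = v / r := by simp only [f]; rw [hv, Int.toNat_natCast]
        rw [← h2, ← h3]
        exact hab
      have hd : (r : ℤ) ∣ (u : ℤ) - v := by
        have h4 : (r : ℤ) ∣ |a| := (dvd_abs _ _).2 ⟨a', ha'⟩
        have h5 : (r : ℤ) ∣ |b| := (dvd_abs _ _).2 ⟨b', hb'⟩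
        have h6 : (u : ℤ) - v = |b| - |a| := by linarith
        rw [h6]
        exact dvd_sub h5 h4
      have hu2 := Nat.div_add_mod u r
      have hv2 := Nat.div_add_mod v r
      have hu3 := Nat.mod_lt u hr
      have hv3 := Nat.mod_lt v hr
      rw [huv] at hu2
      have h7 : (u : ℤ) - v = (u % r : ℕ) - (v % r : ℕ) := by
        have e1 : (u : ℤ) = (r * (v / r) : ℕ) + (u % r : ℕ) := by exact_mod_cast hu2.symm
        have e2 : (v : ℤ) = (r * (v / r) : ℕ) + (v % r : ℕ) := by exact_mod_cast hv2.symm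
        rw [e1]
        conv_lhs => rw [e2]
        ring
      have h8 : |(u : ℤ) - v| < r := by
        rw [h7, abs_lt]
        constructor <;> omega
      have h9 := Int.eq_zero_of_abs_lt_dvd hd h8
      linarith
    rcases hs with hs | hs
    · have h2 := hs a ha
      have h3 := hs b hb
      rwa [abs_of_nonneg h2, abs_of_nonneg h3] at h1
    · have h2 := hs a ha
      have h3 := hs b hb
      rw [abs_of_neg h2, abs_of_neg h3] at h1
      linarith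
  have hfM : ∀ a ∈ A, f a < β / r + 1 := by
    intro a ha
    obtain ⟨ha1, ha2, -⟩ := hA a ha
    have : ((n : ℤ) - |a|).toNat ≤ β := by omega
    have h2 : f a ≤ β / r := Nat.div_le_div_right this
    omega
  have hval : ∀ a ∈ A, (XX n r a : ℝ) ^ (t - 1) ≤
      (r : ℝ) ^ (t - 1) * (max 1 (f a : ℝ)) ^ (t - 1) := by
    intro a ha
    obtain ⟨ha1, ha2, -⟩ := hA a ha
    have h1 : (r : ℝ) * max 1 (f a : ℝ) ≤ XX n r a := by
      rcases le_total 1 (f a) with h | h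
      · rw [max_eq_right (by exact_mod_cast h)]
        have h2 : r * f a ≤ XX n r a := by
          have h3 : r * f a ≤ ((n : ℤ) - |a|).toNat := Nat.mul_div_le _ _
          have h4 : 0 ≤ |a| := abs_nonneg a
          unfold XX
          omega
        exact_mod_cast h2
      · rw [max_eq_left (by exact_mod_cast h), mul_one]
        have h2 : r ≤ XX n r a := by
          unfold XX
          omega
        exact_mod_cast h2
    have h2 : (0 : ℝ) < max 1 (f a : ℝ) := lt_of_lt_of_le one_pos (le_max_left _ _)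
    rw [← Real.mul_rpow hr0.le h2.le]
    exact Real.rpow_le_rpow_of_nonpos (mul_pos hr0 h2) h1 (by linarith)
  have hsum : ∑ a ∈ A, (max 1 (f a : ℝ)) ^ (t - 1) ≤
      ∑ m ∈ range (β / r + 1), (max 1 (m : ℝ)) ^ (t - 1) := by
    rw [← sum_image (f := fun m : ℕ => (max 1 (m : ℝ)) ^ (t - 1)) hf]
    refine sum_le_sum_of_subset_of_nonneg ?_ fun _ _ _ => by positivity
    intro m hm
    obtain ⟨a, ha, rfl⟩ := mem_image.1 hm
    exact mem_range.2 (hfM a ha)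
  have hM1 : (1 : ℝ) ≤ (β : ℝ) / r := by rwa [le_div_iff₀ hr0, one_mul]
  have hsum2 : ∑ m ∈ range (β / r + 1), (max 1 (m : ℝ)) ^ (t - 1) ≤
      (1 + 1 / t) * ((β : ℝ) / r) ^ t := by
    rw [sum_range_succ']
    have h1 : ∀ m : ℕ, (max 1 ((m + 1 : ℕ) : ℝ)) ^ (t - 1) =
        ((m : ℝ) + 1) ^ (t - 1) := by
      intro m
      rw [max_eq_right (by push_cast; have : (0 : ℝ) ≤ m := Nat.cast_nonneg m; linarith)]
      push_cast
      rfl
    simp only [h1]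
    have h2 := sum_pow t ht0 ht1 (β / r)
    have h3 : (((β / r : ℕ)) : ℝ) ^ t ≤ ((β : ℝ) / r) ^ t :=
      Real.rpow_le_rpow (Nat.cast_nonneg _) Nat.cast_div_le ht0.le
    have h4 : (1 : ℝ) ≤ ((β : ℝ) / r) ^ t := Real.one_le_rpow hM1 ht0.le
    have h5 : (max 1 ((0 : ℕ) : ℝ)) ^ (t - 1) = 1 := by simp
    have h6 : (1 / t) * (((β / r : ℕ)) : ℝ) ^ t ≤ (1 / t) * ((β : ℝ) / r) ^ t :=
      mul_le_mul_of_nonneg_left h3 (by positivity)
    rw [h5]
    linarith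
  calc ∑ a ∈ A, (XX n r a : ℝ) ^ (t - 1) ≤
      ∑ a ∈ A, (r : ℝ) ^ (t - 1) * (max 1 (f a : ℝ)) ^ (t - 1) :=
        sum_le_sum hval
    _ = (r : ℝ) ^ (t - 1) * ∑ a ∈ A, (max 1 (f a : ℝ)) ^ (t - 1) := by
        rw [mul_sum]
    _ ≤ (r : ℝ) ^ (t - 1) * ((1 + 1 / t) * ((β : ℝ) / r) ^ t) :=
        mul_le_mul_of_nonneg_left (hsum.trans hsum2) (by positivity)
    _ = (1 + 1 / t) * ((β : ℝ) ^ t / r) := by
        rw [Real.div_rpow hD0.le hr0.le, Real.rpow_sub_one hr0.ne']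
        have h3 : (r : ℝ) ^ t ≠ 0 := by positivity
        field_simp

/-- both sides -/
theorem line {n r β : ℕ} (t : ℝ) (ht0 : 0 < t) (ht1 : t < 1) (hr : 1 ≤ r) (hβ : r ≤ β)
    (hn : β ≤ n) (A : Finset ℤ)
    (hA : ∀ a ∈ A, |a| ≤ n ∧ (n : ℤ) - |a| ≤ β ∧ (r : ℤ) ∣ a) :
    ∑ a ∈ A, (XX n r a : ℝ) ^ (t - 1) ≤ 2 * ((1 + 1 / t) * ((β : ℝ) ^ t / r)) := by
  classical
  rw [← sum_filter_add_sum_filter_not A (fun a => 0 ≤ a)]
  have h1 := side t ht0 ht1 hr hβ hn (A.filter (fun a => 0 ≤ a))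
    (fun a ha => hA a (mem_filter.1 ha).1) (Or.inl fun a ha => (mem_filter.1 ha).2)
  have h2 := side t ht0 ht1 hr hβ hn (A.filter (fun a => ¬ 0 ≤ a))
    (fun a ha => hA a (mem_filter.1 ha).1) (Or.inr fun a ha => not_le.1 (mem_filter.1 ha).2)
  linarith

/-- the main estimate -/
theorem core {n r β : ℕ} (hr : 1 ≤ r) (hβ : r ≤ β) (hn : β ≤ n) (S : Finset (ℤ × ℤ))
    (hS : ∀ c ∈ S, |c.1| ≤ n ∧ |c.2| ≤ n ∧ (r : ℤ) ∣ c.1 ∧ (r : ℤ) ∣ c.2)
    (Q : ℤ × ℤ → ℝ)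
    (hQ : ∀ c ∈ S, Q c ≤ (r : ℝ) ^ (5 / 4 : ℝ) * (n : ℝ) ^ (-(1 / 3) : ℝ) *
      ((if (n : ℤ) - |c.1| ≤ β then (XX n r c.1 : ℝ) ^ (2 / 3 - 1 : ℝ) else 0) *
        (XX n r c.2 : ℝ) ^ (5 / 12 - 1 : ℝ) +
      (if (n : ℤ) - |c.2| ≤ β then (XX n r c.2 : ℝ) ^ (2 / 3 - 1 : ℝ) else 0) *
        (XX n r c.1 : ℝ) ^ (5 / 12 - 1 : ℝ))) :
    ∑ c ∈ S, Q c ≤ 68 * (((β : ℝ) / n) ^ (2 / 3 : ℝ) * ((n : ℝ) / r) ^ (3 / 4 : ℝ)) := by
  classical
  have hr0 : (0 : ℝ) < r := by exact_mod_cast hr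
  have hβ0 : (0 : ℝ) < β := by
    have : (r : ℝ) ≤ β := by exact_mod_cast hβ
    linarith
  have hn0 : (0 : ℝ) < n := by
    have : (β : ℝ) ≤ n := by exact_mod_cast hn
    linarith
  set I : Finset ℤ := (S.image Prod.fst) ∪ (S.image Prod.snd) with hI
  have hI2 : ∀ a ∈ I, |a| ≤ n ∧ (r : ℤ) ∣ a := by
    intro a ha
    rw [hI, mem_union] at ha
    rcases ha with ha | ha
    · obtain ⟨c, hc, rfl⟩ := mem_image.1 ha
      exact ⟨(hS c hc).1, (hS c hc).2.2.1⟩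
    · obtain ⟨c, hc, rfl⟩ := mem_image.1 ha
      exact ⟨(hS c hc).2.1, (hS c hc).2.2.2⟩
  have hsub : S ⊆ I ×ˢ I := by
    intro c hc
    exact mem_product.2 ⟨mem_union_left _ (mem_image_of_mem _ hc),
      mem_union_right _ (mem_image_of_mem _ hc)⟩
  set K : ℝ := (r : ℝ) ^ (5 / 4 : ℝ) * (n : ℝ) ^ (-(1 / 3) : ℝ) with hK
  have hK0 : 0 ≤ K := by positivity
  set g : ℤ → ℝ := fun a => if (n : ℤ) - |a| ≤ β then (XX n r a : ℝ) ^ (2 / 3 - 1 : ℝ) else 0
    with hg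
  set h : ℤ → ℝ := fun a => (XX n r a : ℝ) ^ (5 / 12 - 1 : ℝ) with hh
  have hg0 : ∀ a, 0 ≤ g a := by
    intro a
    simp only [hg]
    split_ifs <;> positivity
  have hh0 : ∀ a, 0 ≤ h a := by
    intro a
    simp only [hh]
    positivity
  have hgs : ∑ a ∈ I, g a ≤ 5 * ((β : ℝ) ^ (2 / 3 : ℝ) / r) := by
    have h1 := line (2 / 3) (by norm_num) (by norm_num) hr hβ hn
      (I.filter (fun a => (n : ℤ) - |a| ≤ β)) (by
        intro a ha
        rw [mem_filter] at ha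
        exact ⟨(hI2 a ha.1).1, ha.2, (hI2 a ha.1).2⟩)
    rw [sum_filter] at h1
    refine h1.trans (le_of_eq ?_)
    ring
  have hhs : ∑ a ∈ I, h a ≤ 34 / 5 * ((n : ℝ) ^ (5 / 12 : ℝ) / r) := by
    have h1 := line (n := n) (r := r) (β := n) (5 / 12) (by norm_num) (by norm_num) hr
      (hβ.trans hn) le_rfl I (by
        intro a ha
        exact ⟨(hI2 a ha).1, by have := abs_nonneg a; linarith, (hI2 a ha).2⟩)
    refine h1.trans (le_of_eq ?_)
    ring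
  have hgs0 : 0 ≤ ∑ a ∈ I, g a := sum_nonneg fun a _ => hg0 a
  have hhs0 : 0 ≤ ∑ a ∈ I, h a := sum_nonneg fun a _ => hh0 a
  calc ∑ c ∈ S, Q c ≤ ∑ c ∈ S, K * (g c.1 * h c.2 + g c.2 * h c.1) := sum_le_sum hQ
    _ ≤ ∑ c ∈ I ×ˢ I, K * (g c.1 * h c.2 + g c.2 * h c.1) := by
        apply sum_le_sum_of_subset_of_nonneg hsub
        intro c _ _
        have := hg0 c.1
        have := hg0 c.2
        have := hh0 c.1
        have := hh0 c.2
        positivity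
    _ = K * (2 * ((∑ a ∈ I, g a) * ∑ a ∈ I, h a)) := by
        rw [← mul_sum, sum_add_distrib, sum_product, sum_product, sum_mul_sum]
        congr 1
        rw [two_mul]
        congr 1
        rw [sum_comm]
    _ ≤ K * (2 * ((5 * ((β : ℝ) ^ (2 / 3 : ℝ) / r)) * (34 / 5 * ((n : ℝ) ^ (5 / 12 : ℝ) / r)))) := by
        apply mul_le_mul_of_nonneg_left _ hK0
        apply mul_le_mul_of_nonneg_left _ (by norm_num)
        exact mul_le_mul hgs hhs hhs0 (by positivity)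
    _ = 68 * (((β : ℝ) / n) ^ (2 / 3 : ℝ) * ((n : ℝ) / r) ^ (3 / 4 : ℝ)) := by
        have e1 : ((β : ℝ) / n) ^ (2 / 3 : ℝ) * ((n : ℝ) / r) ^ (3 / 4 : ℝ) =
            K * (((β : ℝ) ^ (2 / 3 : ℝ) / r) * ((n : ℝ) ^ (5 / 12 : ℝ) / r)) := by
          have e2 : (β : ℝ) ^ (2 / 3 : ℝ) / r = (β : ℝ) ^ (2 / 3 : ℝ) * (r : ℝ) ^ (-1 : ℝ) := by
            rw [Real.rpow_neg_one]
            rfl
          have e3 : (n : ℝ) ^ (5 / 12 : ℝ) / r = (n : ℝ) ^ (5 / 12 : ℝ) * (r : ℝ) ^ (-1 : ℝ) := by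
            rw [Real.rpow_neg_one]
            rfl
          rw [e2, e3, hK, Real.rpow_def_of_pos (div_pos hβ0 hn0),
            Real.rpow_def_of_pos (div_pos hn0 hr0), Real.rpow_def_of_pos hr0,
            Real.rpow_def_of_pos hn0, Real.rpow_def_of_pos hβ0, Real.rpow_def_of_pos hr0,
            Real.rpow_def_of_pos hn0, ← Real.exp_add, ← Real.exp_add, ← Real.exp_add,
            ← Real.exp_add, ← Real.exp_add, ← Real.exp_add, Real.log_div hβ0.ne' hn0.ne',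
            Real.log_div hn0.ne' hr0.ne']
          congr 1
          ring
        rw [e1]
        ring

/-- the square root of `qc` -/
theorem sqrt_id (r u v n : ℝ) (hr : 0 < r) (hu : 0 < u) (hv : 0 < v) (hn : 0 < n) :
    ((r / u) ^ (5 / 2 : ℝ) * (u / v) ^ (11 / 6 : ℝ) * (v / n) ^ (2 / 3 : ℝ)) ^ (1 / 2 : ℝ) =
      r ^ (5 / 4 : ℝ) * n ^ (-(1 / 3) : ℝ) * (u ^ (2 / 3 - 1 : ℝ) * v ^ (5 / 12 - 1 : ℝ)) := by
  rw [Real.rpow_def_of_pos (div_pos hr hu), Real.rpow_def_of_pos (div_pos hu hv),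
    Real.rpow_def_of_pos (div_pos hv hn), Real.rpow_def_of_pos hr, Real.rpow_def_of_pos hn,
    Real.rpow_def_of_pos hu, Real.rpow_def_of_pos hv, ← Real.exp_add, ← Real.exp_add,
    ← Real.exp_mul, ← Real.exp_add, ← Real.exp_add, ← Real.exp_add, Real.log_div hr.ne' hu.ne',
    Real.log_div hu.ne' hv.ne', Real.log_div hv.ne' hn.ne']
  congr 1
  ring

end Pool.Agent.Y908.SN
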