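import Pool.Agent.Y554.SN.Stm3
import Pool.Agent.Y908.SN.SumhCore

/-! SN-SUMH (helper908). -/

set_option autoImplicit false

namespace Pool.Agent.Y908.SN

open Finset Pool.Agent.Y554.SN

theorem XX_pos {n r : ℕ} (hr : 1 ≤ r) (hn : r ≤ n) (a : ℤ) : 0 < XX n r a := by
  unfold XX
  omega

theorem sumh : S_SUMH := by
  classical
  refine ⟨68, by norm_num, ?_⟩
  intro n r β hr hβ hn
  have hr0 : (0 : ℝ) < r := by exact_mod_cast hr
  have hrn : r ≤ n := hβ.trans hn
  have hn0 : (0 : ℝ) < n := by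
    have : (r : ℝ) ≤ n := by exact_mod_cast hrn
    linarith
  apply core hr hβ hn
  · intro c hc
    rw [mem_filter, cel, mem_filter, mem_product, mem_Icc, mem_Icc] at hc
    obtain ⟨⟨⟨⟨h1, h2⟩, h3, h4⟩, h5, h6⟩, -⟩ := hc
    exact ⟨abs_le.2 ⟨h1, h2⟩, abs_le.2 ⟨h3, h4⟩, h5, h6⟩
  · intro c hc
    have hb : b1 n c ≤ β := (mem_filter.1 hc).2
    have hK : 0 ≤ (r : ℝ) ^ (5 / 4 : ℝ) * (n : ℝ) ^ (-(1 / 3) : ℝ) := by positivity
    have hx1 : (0 : ℝ) < XX n r c.1 := by exact_mod_cast XX_pos hr hrn c.1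
    have hx2 : (0 : ℝ) < XX n r c.2 := by exact_mod_cast XX_pos hr hrn c.2
    rcases le_total |c.1| |c.2| with h | h
    · have e1 : B1 n c r n = XX n r c.2 := by
        unfold B1 b1 XX
        rw [max_eq_right h]
      have e2 : B2 n c r n = XX n r c.1 := by
        unfold B2 b2 XX
        rw [min_eq_left h]
      have e3 : (n : ℤ) - |c.2| ≤ β := by
        unfold b1 at hb
        rw [max_eq_right h] at hb
        omega
      rw [if_pos e3]
      unfold qc
      rw [e1, e2, sqrt_id _ _ _ _ hr0 hx2 hx1 hn0]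
      apply mul_le_mul_of_nonneg_left _ hK
      have : 0 ≤ (if (n : ℤ) - |c.1| ≤ β then (XX n r c.1 : ℝ) ^ (2 / 3 - 1 : ℝ) else 0) *
          (XX n r c.2 : ℝ) ^ (5 / 12 - 1 : ℝ) := by
        split_ifs <;> positivity
      linarith
    · have e1 : B1 n c r n = XX n r c.1 := by
        unfold B1 b1 XX
        rw [max_eq_left h]
      have e2 : B2 n c r n = XX n r c.2 := by
        unfold B2 b2 XX
        rw [min_eq_right h]
      have e3 : (n : ℤ) - |c.1| ≤ β := by
        unfold b1 at hb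
        rw [max_eq_left h] at hb
        omega
      rw [if_pos e3]
      unfold qc
      rw [e1, e2, sqrt_id _ _ _ _ hr0 hx1 hx2 hn0]
      apply mul_le_mul_of_nonneg_left _ hK
      have : 0 ≤ (if (n : ℤ) - |c.2| ≤ β then (XX n r c.2 : ℝ) ^ (2 / 3 - 1 : ℝ) else 0) *
          (XX n r c.1 : ℝ) ^ (5 / 12 - 1 : ℝ) := by
        split_ifs <;> positivity
      linarith

end Pool.Agent.Y908.SN
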